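import Pool.Agent.N803.VS.CexB
import Pool.Agent.N561.C.Stm

/-!
# The clasp sum: exact formula (task VS/K1)
-/

set_option autoImplicit false

namespace Pool.Agent.N803.VS

theorem cex : Pool.Agent.N561.S_CEX := by
  intro N hN
  obtain ⟨u, hu, h⟩ := cex0 N hN
  exact ⟨u, hu, h⟩

end Pool.Agent.N803.VS
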