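import Pool.Agent.N803.VS.CexA
import Pool.Agent.W490.AR.Lmd
import Pool.Agent.W398.HT.STPE
import Pool.Agent.W346.HT.Asm

/-!
# The clasp sum: the contour integral (task VS/K1)
-/

set_option autoImplicit false

namespace Pool.Agent.N803.VS

open Filter Finset MeasureTheory
open scoped Real Topology Interval
open Pool.Agent.W711.HT (Rp Sd Ea kr upp stp phi)
open Pool.Agent.W709.VC (rect RI Bd RI_of_cont rect_add rect_mul rect_congr rect_shift)

/-- `4 cos² (N (φ + π) / 2)` -/
noncomputable def DD (N : ℕ) (φ : ℂ) : ℂ := 4 * Complex.cos (N * (φ + π) / 2) ^ 2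

lemma DD_diff (N : ℕ) : Differentiable ℂ (DD N) := by
  unfold DD
  fun_prop

/-- `e^{i (φ + π)}` -/
noncomputable def tt (φ : ℂ) : ℂ := Complex.exp ((φ + π) * Complex.I)

lemma tt_ne (φ : ℂ) : tt φ ≠ 0 := Complex.exp_ne_zero _

lemma tt_pow (N : ℕ) (φ : ℂ) : tt φ ^ N = Complex.exp (N * (φ + π) * Complex.I) := by
  unfold tt
  rw [← Complex.exp_nat_mul]
  congr 1
  ring

lemma tt_eq (φ : ℂ) : tt φ = -Complex.exp (φ * Complex.I) := by
  unfold tt
  rw [add_mul, Complex.exp_add, Complex.exp_pi_mul_I]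
  ring

lemma DD_eq (N : ℕ) (φ : ℂ) : DD N φ * tt φ ^ N = (1 + tt φ ^ N) ^ 2 := by
  unfold DD
  have h1 : tt φ ^ N = Complex.exp (N * (φ + π) / 2 * Complex.I) ^ 2 := by
    rw [tt_pow, ← Complex.exp_nat_mul]
    congr 1
    push_cast
    ring
  have h2 : 2 * Complex.cos (N * (φ + π) / 2) =
      Complex.exp (N * (φ + π) / 2 * Complex.I) + (Complex.exp (N * (φ + π) / 2 * Complex.I))⁻¹ :=
    two_cos _
  have h3 : 4 * Complex.cos (N * (φ + π) / 2) ^ 2 = (2 * Complex.cos (N * (φ + π) / 2)) ^ 2 := by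
    ring
  have h4 := Complex.exp_ne_zero (N * (φ + π) / 2 * Complex.I)
  rw [h3, h2, h1]
  field_simp
  ring

lemma DD_ne_iff (N : ℕ) (φ : ℂ) : DD N φ ≠ 0 ↔ 1 + tt φ ^ N ≠ 0 := by
  have h1 := DD_eq N φ
  have h2 := pow_ne_zero N (tt_ne φ)
  constructor
  · intro h h0
    rw [h0] at h1
    simp at h1
    rcases h1 with h1 | h1
    · exact h h1
    · exact tt_ne φ h1.1
  · intro h h0
    rw [h0, zero_mul] at h1
    exact pow_ne_zero 2 h h1.symm

lemma zero_of {N : ℕ} (hN : 0 < N) {φ : ℂ} (h : 1 + tt φ ^ N = 0) :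
    ∃ k : ℤ, φ = -π + π * (2 * k + 1) / N := by
  have hN0 : (N : ℂ) ≠ 0 := by exact_mod_cast hN.ne'
  have h1 : Complex.exp (N * (φ + π) * Complex.I) = Complex.exp (π * Complex.I) := by
    rw [← tt_pow, Complex.exp_pi_mul_I]
    linear_combination h
  obtain ⟨k, hk⟩ := Complex.exp_eq_exp_iff_exists_int.1 h1
  refine ⟨k, ?_⟩
  have h2 : ((N : ℂ) * (φ + π) - π * (2 * k + 1)) * Complex.I = 0 := by linear_combination hk
  have h3 := (mul_eq_zero.1 h2).resolve_right Complex.I_ne_zero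
  field_simp
  linear_combination h3

/-- `∑ t^k b^{N-1-k}` -/
noncomputable def PP (N : ℕ) (φ : ℂ) : ℂ := ∑ k ∈ range N, tt φ ^ k * bq N ^ (N - 1 - k)

lemma PP_mul (N : ℕ) (φ : ℂ) : PP N φ * (tt φ - bq N) = tt φ ^ N - bq N ^ N := by
  unfold PP
  exact Commute.geom_sum₂_mul (Commute.all _ _) N

lemma bq_N {N : ℕ} (hN : 0 < N) : bq N ^ N = -1 := by
  have hN0 : (N : ℂ) ≠ 0 := by exact_mod_cast hN.ne'
  rw [bq_pow]
  rw [show (N : ℂ) * (π * Complex.I / N) = π * Complex.I by field_simp, Complex.exp_pi_mul_I]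

lemma tt_re (φ : ℂ) : φ = (φ.re : ℂ) + φ.im * Complex.I := (Complex.re_add_im φ).symm

lemma PP_ne {N : ℕ} (hN : 0 < N) {φ : ℂ} (h0 : -π ≤ φ.re) (h1 : φ.re ≤ -π + 2 * π / N) :
    PP N φ ≠ 0 := by
  intro h
  have hNR : (0 : ℝ) < N := by exact_mod_cast hN
  have hN0 : (N : ℂ) ≠ 0 := by exact_mod_cast hN.ne'
  have h2 := PP_mul N φ
  rw [h, zero_mul, bq_N hN] at h2
  obtain ⟨k, hk⟩ := zero_of hN (φ := φ) (by linear_combination -h2)
  have hpi := Real.pi_pos
  have e1 : (-π + π * (2 * k + 1) / N : ℂ) = ((-π + π * (2 * k + 1) / N : ℝ) : ℂ) := by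
    push_cast
    ring
  rw [e1] at hk
  have hre : φ.re = -π + π * (2 * k + 1) / N := by rw [hk, Complex.ofReal_re]
  rw [hre] at h0 h1
  have h3 : 0 ≤ π * (2 * k + 1) / N := by linarith
  have h4 : π * (2 * k + 1) / N ≤ 2 * π / N := by linarith
  have h5 : 0 ≤ π * (2 * k + 1) := by
    rwa [le_div_iff₀ hNR, zero_mul] at h3
  have h6 : π * (2 * k + 1) ≤ 2 * π := by
    rwa [div_le_div_iff_of_pos_right hNR] at h4
  have h7 : (0 : ℝ) ≤ 2 * k + 1 := by
    by_contra h8
    push Not at h8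
    nlinarith
  have h8 : (2 * k + 1 : ℝ) ≤ 2 := by
    by_contra h9
    push Not at h9
    nlinarith
  have h9 : (0 : ℤ) ≤ 2 * k + 1 := by exact_mod_cast h7
  have h10 : (2 * k + 1 : ℤ) ≤ 2 := by exact_mod_cast h8
  have hk0 : k = 0 := by omega
  have ht : tt φ = bq N := by
    rw [hk, hk0]
    unfold tt bq
    congr 1
    push_cast
    ring
  unfold PP at h
  rw [ht] at h
  have h11 : ∀ k ∈ range N, bq N ^ k * bq N ^ (N - 1 - k) = bq N ^ (N - 1) := by
    intro k hk
    rw [mem_range] at hk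
    rw [← pow_add]
    congr 1
    omega
  rw [sum_congr rfl h11, sum_const, card_range, nsmul_eq_mul] at h
  exact mul_ne_zero hN0 (pow_ne_zero _ (bq_ne N)) h

/-- the difference `G(φ + 2 π) - G(φ)` over `D`, without its removable singularity -/
noncomputable def HH (N d : ℕ) (φ : ℂ) : ℂ :=
  -(Ea (-2) N φ * Rp N d φ * (Complex.exp (φ * Complex.I) + bq N ^ (2 * d + 1)) *
    (1 - tt φ ^ N)) / (tt φ ^ N * PP N φ)

lemma Rp_period (N d : ℕ) (φ : ℂ) : Rp N d (φ + 2 * π) = Rp N d φ := by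
  unfold Rp
  simp only [Complex.cos_add_two_pi]

lemma exp_period (φ : ℂ) :
    Complex.exp ((φ + 2 * π) * Complex.I) = Complex.exp (φ * Complex.I) := by
  rw [add_mul, Complex.exp_add, Complex.exp_two_pi_mul_I, mul_one]

lemma DD_period (N : ℕ) (φ : ℂ) : DD N (φ + 2 * π) = DD N φ := by
  unfold DD
  have : 2 * ((N : ℂ) * (φ + 2 * π + π) / 2) = 2 * (N * (φ + π) / 2) + (N : ℕ) * (2 * π) := by ring
  rw [Complex.cos_sq, this, Complex.cos_add_nat_mul_two_pi, ← Complex.cos_sq]

lemma DD_shift {N : ℕ} (hN : 0 < N) (φ : ℂ) : DD N (φ + 2 * π / N) = DD N φ := by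
  have hN0 : (N : ℂ) ≠ 0 := by exact_mod_cast hN.ne'
  unfold DD
  have : (N : ℂ) * (φ + 2 * π / N + π) / 2 = N * (φ + π) / 2 + π := by
    field_simp
    ring
  rw [this, Complex.cos_add_pi]
  ring

lemma HH_eq {N : ℕ} (hN : 0 < N) (d : ℕ) {φ : ℂ} (hD : DD N φ ≠ 0) :
    Gf N d (φ + 2 * π) / DD N (φ + 2 * π) - Gf N d φ / DD N φ = HH N d φ := by
  have hD2 := (DD_ne_iff N φ).1 hD
  have h1 := DD_eq N φ
  have h2 := PP_mul N φ
  have h3 := Ea_period hN φ
  have h4 : Complex.exp (φ * Complex.I) ^ (2 * N) = (tt φ ^ N) ^ 2 := by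
    rw [tt_eq, ← pow_mul, mul_comm N 2, pow_mul, pow_mul]
    simp
  have ht := pow_ne_zero N (tt_ne φ)
  rw [h4] at h3
  rw [bq_N hN] at h2
  have hP : PP N φ ≠ 0 := by
    intro h
    apply hD2
    rw [h, zero_mul] at h2
    linear_combination -h2
  have hz : Complex.exp (φ * Complex.I) = -tt φ := by rw [tt_eq]; ring
  have hb : -tt φ + bq N = -(1 + tt φ ^ N) / PP N φ := by
    rw [eq_div_iff hP]
    linear_combination -h2
  unfold Gf HH
  rw [DD_period, Rp_period, exp_period, ← h3, hz, hb]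
  have hD3 : DD N φ = (1 + tt φ ^ N) ^ 2 / tt φ ^ N := by
    rw [eq_div_iff ht, h1]
  rw [hD3]
  generalize tt φ ^ N = T at *
  generalize Ea (-2) N (φ + 2 * π) = E' at *
  generalize PP N φ = P at *
  field_simp
  ring

/-! ### Rectangles -/

lemma rect_cauchy {f : ℂ → ℂ} {a b c d : ℝ} (hf : DifferentiableOn ℂ f ([[a, b]] ×ℂ [[c, d]])) :
    rect f a b c d = 0 := by
  have h1 := Complex.integral_boundary_rect_eq_zero_of_differentiableOn f
    (a + c * Complex.I) (b + d * Complex.I) (by simpa using hf)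
  simp only [Complex.add_re, Complex.add_im, Complex.ofReal_re, Complex.ofReal_im,
    Complex.mul_re, Complex.mul_im, Complex.I_re, Complex.I_im, mul_zero, mul_one, zero_mul,
    sub_zero, sub_self, add_zero, zero_add, smul_eq_mul] at h1
  unfold rect
  linear_combination h1

lemma rect_tele {f : ℂ → ℂ} {a b s c d : ℝ}
    (h1 : ∀ u v : ℝ, IntervalIntegrable (fun x : ℝ => f (x + c * Complex.I)) volume u v)
    (h2 : ∀ u v : ℝ, IntervalIntegrable (fun x : ℝ => f (x + d * Complex.I)) volume u v) :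
    rect f (a + s) (b + s) c d - rect f a b c d =
      rect f b (b + s) c d - rect f a (a + s) c d := by
  unfold rect
  have e1 := intervalIntegral.integral_add_adjacent_intervals (h1 a (a + s)) (h1 (a + s) (b + s))
  have e2 := intervalIntegral.integral_add_adjacent_intervals (h1 a b) (h1 b (b + s))
  have e3 := intervalIntegral.integral_add_adjacent_intervals (h2 a (a + s)) (h2 (a + s) (b + s))
  have e4 := intervalIntegral.integral_add_adjacent_intervals (h2 a b) (h2 b (b + s))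
  linear_combination e1 - e2 - e3 + e4

lemma DD_ne_im {N : ℕ} (hN : 0 < N) {φ : ℂ} (h : φ.im ≠ 0) : DD N φ ≠ 0 := by
  rw [DD_ne_iff]
  intro h0
  obtain ⟨k, hk⟩ := zero_of hN h0
  apply h
  have e1 : (-π + π * (2 * k + 1) / N : ℂ) = ((-π + π * (2 * k + 1) / N : ℝ) : ℂ) := by
    push_cast
    ring
  rw [hk, e1, Complex.ofReal_im]

/-- on vertical lines between the nodes -/
lemma DD_ne_re {N : ℕ} (hN : 0 < N) {φ : ℂ} (m : ℤ) (h : φ.re = -π + π * (2 * m) / N) :
    DD N φ ≠ 0 := by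
  rw [DD_ne_iff]
  intro h0
  obtain ⟨k, hk⟩ := zero_of hN h0
  have hNR : (0 : ℝ) < N := by exact_mod_cast hN
  have hpi := Real.pi_pos
  have e1 : (-π + π * (2 * k + 1) / N : ℂ) = ((-π + π * (2 * k + 1) / N : ℝ) : ℂ) := by
    push_cast
    ring
  rw [hk, e1, Complex.ofReal_re] at h
  have h1 : π * (2 * (k : ℝ) + 1) / N = π * (2 * m) / N := by linarith
  rw [div_left_inj' hNR.ne'] at h1
  have h2 := mul_left_cancel₀ hpi.ne' h1
  have h3 : (2 * k + 1 : ℤ) = 2 * m := by exact_mod_cast h2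
  omega

lemma Gf_diff (N d : ℕ) : Differentiable ℂ (Gf N d) := by
  have h1 := Pool.Agent.W346.HT.Ea_diff (-2) N
  have h2 := Pool.Agent.W346.HT.Rp_diff N d
  unfold Gf
  fun_prop

lemma ff_diff (N d : ℕ) : Differentiable ℂ (ff N d) := by
  have h1 := Pool.Agent.W346.HT.Ea_diff (-2) N
  have h2 := Pool.Agent.W346.HT.Rp_diff N d
  unfold ff
  fun_prop

lemma Gf_cont_line {N : ℕ} (hN : 0 < N) (d : ℕ) {c : ℝ} (hc : c ≠ 0) (u v : ℝ) :
    IntervalIntegrable (fun x : ℝ => Gf N d (x + c * Complex.I) / DD N (x + c * Complex.I))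
      volume u v := by
  apply Continuous.intervalIntegrable
  apply Continuous.div
  · exact (Gf_diff N d).continuous.comp (by fun_prop)
  · exact (DD_diff N).continuous.comp (by fun_prop)
  · intro x
    apply DD_ne_im hN
    simpa using hc

lemma HH_rect {N : ℕ} (hN : 0 < N) (d : ℕ) (h : ℝ) :
    rect (HH N d) (-π) (-π + 2 * π / N) (-h) h = 0 := by
  have hNR : (0 : ℝ) < N := by exact_mod_cast hN
  have hpi := Real.pi_pos
  apply rect_cauchy
  intro φ hφ
  apply DifferentiableAt.differentiableWithinAt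
  rw [Complex.mem_reProdIm] at hφ
  have h1 := hφ.1
  rw [Set.uIcc_of_le (by have : 0 < 2 * π / N := by positivity
                         linarith)] at h1
  have hP := PP_ne hN h1.1 h1.2
  have hE := Pool.Agent.W346.HT.Ea_diff (-2) N
  have hR := Pool.Agent.W346.HT.Rp_diff N d
  have ht : Differentiable ℂ tt := by
    unfold tt
    fun_prop
  have hPd : Differentiable ℂ (PP N) := by
    unfold PP
    fun_prop
  unfold HH
  apply DifferentiableAt.div
  · fun_prop
  · fun_prop
  · exact mul_ne_zero (pow_ne_zero _ (tt_ne φ)) hP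

lemma rect_ff {N : ℕ} (hN : 0 < N) (d : ℕ) {h : ℝ} (hh : 0 < h) :
    rect (fun φ => ff N d φ / DD N φ) (-π) π (-h) h = 0 := by
  have hNR : (0 : ℝ) < N := by exact_mod_cast hN
  have hpi := Real.pi_pos
  have hD : ∀ φ ∈ Bd (-π) π (-h) h, DD N φ ≠ 0 := by
    rintro φ (⟨x, _, rfl⟩ | ⟨x, _, rfl⟩ | ⟨y, _, rfl⟩ | ⟨y, _, rfl⟩)
    · exact DD_ne_im hN (by simpa using hh.ne')
    · exact DD_ne_im hN (by simpa using hh.ne')
    · apply DD_ne_re hN N
      simp
      field_simp
      ring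
    · apply DD_ne_re hN 0
      simp
  have hRI : ∀ g : ℂ → ℂ, Differentiable ℂ g → RI (fun φ => g φ / DD N φ) (-π) π (-h) h := by
    intro g hg
    apply RI_of_cont
    intro z hz
    exact (hg.continuous.continuousAt).div (DD_diff N).continuous.continuousAt (hD z hz)
  -- the telescope
  set F : ℂ → ℂ := fun φ => Gf N d φ / DD N φ with hF
  have t1 := rect_tele (f := F) (a := -π) (b := π) (s := 2 * π / N) (c := -h) (d := h)
    (fun u v => Gf_cont_line hN d (c := -h) (by simpa using hh.ne') u v)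
    (fun u v => Gf_cont_line hN d hh.ne' u v)
  have t2 := rect_shift F (-π) π (-h) h (2 * π / N)
  have t3 := rect_shift F (-π) (-π + 2 * π / N) (-h) h (2 * π)
  rw [show -π + 2 * π = π by ring, show -π + 2 * π / N + 2 * π = π + 2 * π / N by ring] at t3
  rw [← t2, ← t3] at t1
  have hD2 : ∀ φ ∈ Bd (-π) (-π + 2 * π / N) (-h) h, DD N φ ≠ 0 := by
    rintro φ (⟨x, _, rfl⟩ | ⟨x, _, rfl⟩ | ⟨y, _, rfl⟩ | ⟨y, _, rfl⟩)
    · exact DD_ne_im hN (by simpa using hh.ne')
    · exact DD_ne_im hN (by simpa using hh.ne')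
    · apply DD_ne_re hN 1
      simp
      ring
    · apply DD_ne_re hN 0
      simp
  have t4 : rect (fun z => F (z + ((2 * π : ℝ) : ℂ))) (-π) (-π + 2 * π / N) (-h) h -
      rect F (-π) (-π + 2 * π / N) (-h) h = rect (HH N d) (-π) (-π + 2 * π / N) (-h) h := by
    have r1 : RI (fun z => F (z + ((2 * π : ℝ) : ℂ))) (-π) (-π + 2 * π / N) (-h) h := by
      apply RI_of_cont
      intro z hz
      have e1 : (fun z => F (z + ((2 * π : ℝ) : ℂ))) = fun z =>
          Gf N d (z + ((2 * π : ℝ) : ℂ)) / DD N z := by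
        funext z
        simp only [hF]
        congr 1
        push_cast
        exact DD_period N z
      rw [e1]
      exact ((Gf_diff N d).continuous.comp (by fun_prop : Continuous fun z : ℂ =>
        z + ((2 * π : ℝ) : ℂ))).continuousAt.div (DD_diff N).continuous.continuousAt (hD2 z hz)
    have r2 : RI (fun z => (-1) * F z) (-π) (-π + 2 * π / N) (-h) h := by
      apply RI_of_cont
      intro z hz
      exact continuousAt_const.mul
        ((Gf_diff N d).continuous.continuousAt.div (DD_diff N).continuous.continuousAt (hD2 z hz))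
    have e3 : rect (fun z => F (z + ((2 * π : ℝ) : ℂ)) + (-1) * F z) (-π) (-π + 2 * π / N) (-h) h =
        rect (HH N d) (-π) (-π + 2 * π / N) (-h) h := by
      apply rect_congr
      intro z hz
      have := HH_eq hN d (hD2 z hz)
      simp only [hF]
      rw [← this]
      push_cast
      ring
    rw [rect_add r1 r2, rect_mul] at e3
    rw [← e3]
    ring
  rw [t4, HH_rect hN] at t1
  -- the difference
  have t5 : rect (fun z => F (z + ((2 * π / N : ℝ) : ℂ))) (-π) π (-h) h - rect F (-π) π (-h) h =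
      -Complex.I * rect (fun φ => ff N d φ / DD N φ) (-π) π (-h) h := by
    have r1 : RI (fun z => F (z + ((2 * π / N : ℝ) : ℂ))) (-π) π (-h) h := by
      apply RI_of_cont
      intro z hz
      have e1 : (fun z => F (z + ((2 * π / N : ℝ) : ℂ))) = fun z =>
          Gf N d (z + ((2 * π / N : ℝ) : ℂ)) / DD N z := by
        funext z
        simp only [hF]
        congr 1
        push_cast
        exact DD_shift hN z
      rw [e1]
      exact ((Gf_diff N d).continuous.comp (by fun_prop : Continuous fun z : ℂ =>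
        z + ((2 * π / N : ℝ) : ℂ))).continuousAt.div (DD_diff N).continuous.continuousAt (hD z hz)
    have r2 : RI (fun z => (-1) * F z) (-π) π (-h) h := by
      apply RI_of_cont
      intro z hz
      exact continuousAt_const.mul
        ((Gf_diff N d).continuous.continuousAt.div (DD_diff N).continuous.continuousAt (hD z hz))
    have e3 : rect (fun z => F (z + ((2 * π / N : ℝ) : ℂ)) + (-1) * F z) (-π) π (-h) h =
        rect (fun φ => -Complex.I * (ff N d φ / DD N φ)) (-π) π (-h) h := by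
      apply rect_congr
      intro z hz
      have h1 := Gf_shift hN d z
      have h2 := DD_shift hN z
      simp only [hF]
      push_cast
      rw [h2, show -Complex.I * (ff N d z / DD N z) = (-Complex.I * ff N d z) / DD N z by ring,
        ← h1]
      ring
    rw [rect_add r1 r2, rect_mul, rect_mul] at e3
    rw [← e3]
    ring
  rw [t5] at t1
  have hI := Complex.I_ne_zero
  have := (mul_eq_zero.1 t1).resolve_left (neg_ne_zero.2 hI)
  exact this

/-! ### The integrals -/

/-- the integral with `d` factors -/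
noncomputable def II (N d : ℕ) : ℂ :=
  upp (1 / N) fun ψ => Ea (-2) N ψ * Rp N d ψ * kr N ψ

lemma kr_DD (N : ℕ) (φ : ℂ) : kr N φ = 2 * Complex.sin φ / DD N φ := rfl

lemma II_succ {N : ℕ} (hN : 0 < N) (d : ℕ) :
    II N (d + 1) = -Complex.I * Complex.exp (-(Complex.I * π * d / N)) *
      (2 * Real.sin (π * (d + 1) / N) : ℝ) * II N d := by
  have hNR : (0 : ℝ) < N := by exact_mod_cast hN
  have hh : (0 : ℝ) < 1 / N := by positivity
  have hpi := Real.pi_pos
  set c : ℂ := -Complex.I * Complex.exp (-(Complex.I * π * d / N)) *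
      (2 * Real.sin (π * (d + 1) / N) : ℝ) with hc
  have hcv : c = (bq N ^ (2 * d + 1))⁻¹ - bq N := by
    have h1 := two_sin ((π * (d + 1) / N : ℝ) : ℂ)
    have e1 : Complex.exp (((π * (d + 1) / N : ℝ) : ℂ) * Complex.I) = bq N ^ (d + 1) := by
      rw [bq_pow]
      congr 1
      push_cast
      ring
    have e2 : Complex.exp (-(Complex.I * π * d / N)) = (bq N ^ d)⁻¹ := by
      rw [bq_pow, ← Complex.exp_neg]
      congr 1
      ring
    have hI : Complex.I * Complex.I = -1 := Complex.I_mul_I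
    have hb := bq_ne N
    rw [hc, e2]
    push_cast at h1 ⊢
    rw [h1]
    push_cast at e1
    rw [e1]
    have hp : bq N ^ d ≠ 0 := pow_ne_zero _ hb
    have f2 : bq N ^ (2 * d + 1) = (bq N ^ d) ^ 2 * bq N := by ring
    have f3 : bq N ^ (d + 1) = bq N ^ d * bq N := by ring
    rw [f2, f3]
    field_simp
    rw [Complex.I_sq]
    ring
  -- integrands
  have hRI : ∀ g : ℂ → ℂ, Differentiable ℂ g →
      RI (fun φ => g φ * kr N φ) (-π) π (-(1 / N)) (1 / N) := by
    intro g hg
    have hD : ∀ φ ∈ Bd (-π) π (-(1 / N)) (1 / N), DD N φ ≠ 0 := by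
      rintro φ (⟨x, _, rfl⟩ | ⟨x, _, rfl⟩ | ⟨y, _, rfl⟩ | ⟨y, _, rfl⟩)
      · exact DD_ne_im hN (by simpa using hN.ne')
      · exact DD_ne_im hN (by simpa using hN.ne')
      · apply DD_ne_re hN N
        simp
        field_simp
        ring
      · apply DD_ne_re hN 0
        simp
    apply RI_of_cont
    intro z hz
    have e1 : (fun φ => g φ * kr N φ) = fun φ => g φ * (2 * Complex.sin φ / DD N φ) := rfl
    rw [e1]
    exact hg.continuous.continuousAt.mul
      ((by fun_prop : Continuous fun φ => 2 * Complex.sin φ).continuousAt.div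
        (DD_diff N).continuous.continuousAt (hD z hz))
  have hEd := Pool.Agent.W346.HT.Ea_diff (-2) N
  have hRd := fun d => Pool.Agent.W346.HT.Rp_diff N d
  have hE : ∀ z, Ea (-2) N (-z) = Ea (-2) N z := by
    intro z
    unfold Ea
    congr 1
    ring
  have hup : ∀ d, rect (fun φ => Ea (-2) N φ * Rp N d φ * kr N φ) (-π) π (-(1 / N)) (1 / N) =
      -2 * II N d := by
    intro d
    refine Pool.Agent.W349.HT.rect_upp hh ?_ (hRI _ ((hEd.mul (hRd d))))
    intro z
    show Ea (-2) N (-z) * Rp N d (-z) * kr N (-z) = _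
    rw [hE, Pool.Agent.W349.HT.Rp_even, Pool.Agent.W349.HT.kr_odd]
    ring
  have r1 : RI (fun φ => Ea (-2) N φ * Rp N (d + 1) φ * kr N φ) (-π) π (-(1 / N)) (1 / N) :=
    hRI _ ((hEd.mul (hRd (d + 1))))
  have r2 : RI (fun φ => (-c) * (Ea (-2) N φ * Rp N d φ * kr N φ)) (-π) π (-(1 / N)) (1 / N) := by
    have := hRI _ ((hEd.mul (hRd d)).const_mul (-c))
    have e0 : (fun φ => (-c) * (Ea (-2) N φ * Rp N d φ * kr N φ)) =
        fun φ => (-c) * (Ea (-2) N * Rp N d) φ * kr N φ := by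
      funext φ
      show (-c) * (Ea (-2) N φ * Rp N d φ * kr N φ) = (-c) * (Ea (-2) N φ * Rp N d φ) * kr N φ
      ring
    rw [e0]
    exact this
  have key := rect_ff hN d hh
  have e1 : (fun φ => ff N d φ / DD N φ) = fun φ => Ea (-2) N φ * Rp N (d + 1) φ * kr N φ +
      (-c) * (Ea (-2) N φ * Rp N d φ * kr N φ) := by
    funext φ
    have e2 : Rp N (d + 1) φ = Rp N d φ *
        (2 * Complex.cos φ + 2 * (Real.cos (phi N d) : ℂ)) := by
      unfold Rp
      rw [prod_range_succ]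
    rw [e2, two_cos_phi, hcv, kr_DD]
    unfold ff
    ring
  rw [e1, rect_add r1 r2, rect_mul, hup, hup] at key
  linear_combination (-1 / 2) * key

/-- the last integral -/
lemma II_last {N : ℕ} (hN : 0 < N) : ‖II N (N - 1)‖ = 2 * π := by
  have hNR : (0 : ℝ) < N := by exact_mod_cast hN
  have hh : (0 : ℝ) < 1 / N := by positivity
  have hpi := Real.pi_pos
  have hEd := Pool.Agent.W346.HT.Ea_diff (-2) N
  have hE : ∀ z, Ea (-2) N (-z) = Ea (-2) N z := by
    intro z
    unfold Ea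
    congr 1
    ring
  have h1 := Pool.Agent.W490.AR.rect_GZ (F := Ea (-2) N) (N := N) (n := 0) hN hh
  have hph := Pool.Agent.W709.VC.phi_mem (N := N) (j := 0) hN
  have h2 := Pool.Agent.W490.AR.rect_QF hEd hE N (range (0 + 1)) ⟨0, by simp⟩ 1 (1 / N)
    (by
      intro j hj
      have : j = 0 := by simpa using hj
      subst this
      rw [Pool.Agent.W349.HT.zz_one]
      refine ⟨by simpa using hph.1, by simpa using hph.2, by simpa using hN⟩)
    (by
      intro i hi j hj _
      simp at hi hj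
      omega)
  rw [h2] at h1
  have h3 : rect (Pool.Agent.W490.AR.GZ (Ea (-2) N) N 0) (-π) π (-(1 / N)) (1 / N) =
      -2 * II N (N - 1) :=
    Pool.Agent.W349.HT.rect_upp hh (Pool.Agent.W490.AR.GZ_odd hE N 0)
      (Pool.Agent.W490.AR.GZ_RI hEd hN hh)
  rw [h3] at h1
  have h4 := congrArg norm h1
  have h5 : ‖Ea (-2) N (Pool.Agent.W709.VC.zz N 1 0 - π)‖ = 1 := by
    rw [Pool.Agent.W349.HT.zz_one]
    unfold Ea
    have : (Complex.I * ((-2 : ℤ) : ℂ) * N * (((Pool.Agent.W709.VC.phi N 0 : ℝ) : ℂ) - π) ^ 2 / (4 * π)) =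
      ((-2 * N * (Pool.Agent.W709.VC.phi N 0 - π) ^ 2 / (4 * π) : ℝ) : ℂ) * Complex.I := by
      push_cast
      ring
    rw [this]
    exact Complex.norm_exp_ofReal_mul_I _
  simp only [zero_add, range_one, sum_singleton, norm_mul, norm_pow, norm_neg, norm_one, one_pow,
    one_mul, h5] at h4
  simp [Lagrange.nodalWeight] at h4
  rw [abs_of_pos hpi] at h4
  linarith

lemma II_eq {N : ℕ} (hN : 0 < N) (d : ℕ) : II N d = (-Complex.I) ^ d *
    Complex.exp (-(Complex.I * π * (d * (d - 1)) / (2 * N))) * (Sd N d : ℂ) * II N 0 := by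
  have hN0 : (N : ℂ) ≠ 0 := by exact_mod_cast hN.ne'
  induction d with
  | zero => simp [Sd]
  | succ d ih =>
    have e1 : Sd N (d + 1) = Sd N d * (2 * Real.sin (π * (d + 1) / N)) := by
      unfold Sd
      rw [prod_range_succ]
    have e2 : Complex.exp (-(Complex.I * π * (((d + 1 : ℕ) : ℂ) * (((d + 1 : ℕ) : ℂ) - 1)) / (2 * N))) =
        Complex.exp (-(Complex.I * π * (d * (d - 1)) / (2 * N))) *
          Complex.exp (-(Complex.I * π * d / N)) := by
      rw [← Complex.exp_add]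
      congr 1
      push_cast
      field_simp
      ring
    rw [II_succ hN, ih, e1, e2, pow_succ]
    push_cast
    ring

theorem cex0 : ∀ N : ℕ, 2 ≤ N → ∃ u : ℂ, ‖u‖ = 1 ∧ ∀ ψ : ℂ,
    stp (-2) (fun _ _ => 1) N ψ = 2 * π / N * u * ∑ d ∈ range N, (-Complex.I) ^ d *
      Complex.exp (-(Complex.I * π * (d * (d - 1)) / (2 * N))) * Rp N d ψ / (Sd N d : ℂ) ^ 3 := by
  intro N hN2
  have hN : 0 < N := by omega
  have hNR : (0 : ℝ) < N := by exact_mod_cast hN
  have hN0 : (N : ℂ) ≠ 0 := by exact_mod_cast hN.ne'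
  have hpi := Real.pi_pos
  have hpi0 : (π : ℂ) ≠ 0 := by exact_mod_cast Real.pi_ne_zero
  refine ⟨II N 0 * N / (2 * π), ?_, ?_⟩
  · have h1 := II_last hN
    rw [II_eq hN, Pool.Agent.W346.HT.Sd_full hN] at h1
    have h2 : ‖Complex.exp (-(Complex.I * π * (((N - 1 : ℕ) : ℂ) * (((N - 1 : ℕ) : ℂ) - 1)) /
        (2 * N)))‖ = 1 := by
      have : -(Complex.I * π * (((N - 1 : ℕ) : ℂ) * (((N - 1 : ℕ) : ℂ) - 1)) / (2 * N)) =
          ((-(π * (((N - 1 : ℕ) : ℝ) * (((N - 1 : ℕ) : ℝ) - 1)) / (2 * N)) : ℝ) : ℂ) *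
            Complex.I := by
        push_cast
        ring
      rw [this]
      exact Complex.norm_exp_ofReal_mul_I _
    rw [norm_mul, norm_mul, norm_mul, h2, norm_pow, norm_neg, Complex.norm_I, one_pow, one_mul,
      one_mul, Complex.norm_real, Real.norm_of_nonneg hNR.le] at h1
    rw [norm_div, norm_mul, Complex.norm_natCast, norm_mul, Complex.norm_real,
      Real.norm_of_nonneg hpi.le, Complex.norm_two, div_eq_one_iff_eq (by positivity)]
    linarith
  · intro ψ
    rw [Pool.Agent.W398.HT.stp_eq (-2) (fun _ _ => 1) (fun _ => differentiable_const _) N ψ,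
      mul_sum]
    apply sum_congr rfl
    intro d hd
    rw [mem_range] at hd
    have hS : (Sd N d : ℂ) ≠ 0 := by
      exact_mod_cast (Pool.Agent.W346.HT.Sd_pos hd).ne'
    have e1 : (upp (1 / N) fun ψ => Ea (-2) N ψ * 1 * Rp N d ψ * kr N ψ) = II N d := by
      unfold II
      congr 1
      funext φ
      ring
    rw [e1, II_eq hN]
    field_simp

end Pool.Agent.N803.VS
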