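import Pool.Agent.W711.HT.Defs

/-!
# The clasp sum: the functional equation (task VS/K1)
-/

set_option autoImplicit false

namespace Pool.Agent.N803.VS

open Filter Finset MeasureTheory
open scoped Real Topology Interval
open Pool.Agent.W711.HT (Rp Sd Ea kr upp stp phi)

/-- `e^{π i / N}` -/
noncomputable def bq (N : ℕ) : ℂ := Complex.exp (π * Complex.I / N)

lemma bq_ne (N : ℕ) : bq N ≠ 0 := Complex.exp_ne_zero _

lemma bq_pow (N k : ℕ) : bq N ^ k = Complex.exp (k * (π * Complex.I / N)) := by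
  unfold bq
  rw [← Complex.exp_nat_mul]

lemma two_cos_phi (N j : ℕ) :
    2 * (Real.cos (phi N j) : ℂ) = bq N ^ (2 * j + 1) + (bq N ^ (2 * j + 1))⁻¹ := by
  rw [bq_pow, ← Complex.exp_neg, Complex.ofReal_cos, Complex.two_cos]
  unfold phi
  congr 2
  · push_cast
    ring
  · push_cast
    ring

lemma two_cos (φ : ℂ) :
    2 * Complex.cos φ = Complex.exp (φ * Complex.I) + (Complex.exp (φ * Complex.I))⁻¹ := by
  rw [← Complex.exp_neg, Complex.two_cos, neg_mul]

lemma two_sin (φ : ℂ) : 2 * Complex.sin φ = -Complex.I *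
    (Complex.exp (φ * Complex.I) - (Complex.exp (φ * Complex.I))⁻¹) := by
  rw [← Complex.exp_neg, Complex.two_sin, neg_mul]
  ring

lemma exp_shift (N : ℕ) (φ : ℂ) :
    Complex.exp ((φ + 2 * π / N) * Complex.I) = bq N ^ 2 * Complex.exp (φ * Complex.I) := by
  rw [bq_pow, ← Complex.exp_add]
  congr 1
  push_cast
  ring

lemma Rp_shift (N d : ℕ) (φ : ℂ) :
    Rp N d (φ + 2 * π / N) * (bq N * Complex.exp (φ * Complex.I) + bq N ^ (2 * d)) =
      Rp N d φ * (bq N ^ (2 * d + 1) * Complex.exp (φ * Complex.I) + 1) := by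
  have hb := bq_ne N
  have hz := Complex.exp_ne_zero (φ * Complex.I)
  induction d with
  | zero => simp [Rp]
  | succ d ih =>
    have e1 : Rp N (d + 1) (φ + 2 * π / N) = Rp N d (φ + 2 * π / N) *
        (2 * Complex.cos (φ + 2 * π / N) + 2 * (Real.cos (phi N d) : ℂ)) := by
      unfold Rp
      rw [prod_range_succ]
    have e2 : Rp N (d + 1) φ = Rp N d φ *
        (2 * Complex.cos φ + 2 * (Real.cos (phi N d) : ℂ)) := by
      unfold Rp
      rw [prod_range_succ]
    rw [e1, e2, two_cos_phi, two_cos, two_cos, exp_shift]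
    have hp : bq N ^ d ≠ 0 := pow_ne_zero _ hb
    have f1 : bq N ^ (2 * d) = (bq N ^ d) ^ 2 := by ring
    have f2 : bq N ^ (2 * d + 1) = (bq N ^ d) ^ 2 * bq N := by ring
    have f3 : bq N ^ (2 * (d + 1)) = (bq N ^ d) ^ 2 * bq N ^ 2 := by ring
    have f4 : bq N ^ (2 * (d + 1) + 1) = (bq N ^ d) ^ 2 * bq N ^ 3 := by ring
    rw [f1, f2] at ih
    rw [f2, f3, f4]
    generalize bq N ^ d = p at *
    generalize bq N = b at *
    generalize Complex.exp (φ * Complex.I) = z at *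
    generalize Rp N d (φ + 2 * π / N) = R' at *
    generalize Rp N d φ = R at *
    field_simp
    linear_combination ((p ^ 2 * b ^ 3 * z + 1) * (z + p ^ 2 * b)) * ih

lemma Ea_shift {N : ℕ} (hN : 0 < N) (φ : ℂ) :
    Ea (-2) N (φ + 2 * π / N) * (Complex.exp (φ * Complex.I) ^ 2 * bq N ^ 2) = Ea (-2) N φ := by
  have hN0 : (N : ℂ) ≠ 0 := by exact_mod_cast hN.ne'
  have hpi : (π : ℂ) ≠ 0 := by exact_mod_cast Real.pi_ne_zero
  unfold Ea
  rw [bq_pow, ← Complex.exp_nat_mul, ← Complex.exp_add, ← Complex.exp_add]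
  congr 1
  push_cast
  field_simp
  ring

lemma Ea_period {N : ℕ} (hN : 0 < N) (φ : ℂ) :
    Ea (-2) N (φ + 2 * π) * (Complex.exp (φ * Complex.I) ^ (2 * N)) = Ea (-2) N φ := by
  have hN0 : (N : ℂ) ≠ 0 := by exact_mod_cast hN.ne'
  have hpi : (π : ℂ) ≠ 0 := by exact_mod_cast Real.pi_ne_zero
  have h1 : Complex.exp (-((N : ℤ) : ℂ) * (2 * π * Complex.I)) = 1 := by
    have := Complex.exp_int_mul_two_pi_mul_I (-(N : ℤ))
    rw [← this]
    congr 1
    push_cast
    ring
  unfold Ea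
  rw [← Complex.exp_nat_mul, ← Complex.exp_add, ← mul_one (Complex.exp (_ * _ * _ * φ ^ 2 / _)), ← h1,
    ← Complex.exp_add]
  congr 1
  push_cast
  field_simp
  ring

/-- the function `G` -/
noncomputable def Gf (N d : ℕ) (φ : ℂ) : ℂ :=
  Ea (-2) N φ * Rp N d φ * ((Complex.exp (φ * Complex.I) + bq N ^ (2 * d + 1)) *
    (Complex.exp (φ * Complex.I) + bq N))

/-- the function `f` -/
noncomputable def ff (N d : ℕ) (φ : ℂ) : ℂ :=
  Ea (-2) N φ * Rp N d φ * (2 * Complex.cos φ + bq N ^ (2 * d + 1) + bq N) * (2 * Complex.sin φ)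

/-- the functional equation -/
lemma Gf_shift {N : ℕ} (hN : 0 < N) (d : ℕ) (φ : ℂ) :
    Gf N d (φ + 2 * π / N) - Gf N d φ = -Complex.I * ff N d φ := by
  have hb := bq_ne N
  have hz := Complex.exp_ne_zero (φ * Complex.I)
  have h1 := Rp_shift N d φ
  have h2 := Ea_shift hN φ
  unfold Gf ff
  rw [exp_shift, two_cos, two_sin]
  have hp : bq N ^ d ≠ 0 := pow_ne_zero _ hb
  have f1 : bq N ^ (2 * d) = (bq N ^ d) ^ 2 := by ring
  have f2 : bq N ^ (2 * d + 1) = (bq N ^ d) ^ 2 * bq N := by ring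
  rw [f1, f2] at h1
  rw [f2]
  generalize bq N ^ d = p at *
  generalize bq N = b at *
  generalize Complex.exp (φ * Complex.I) = z at *
  generalize Rp N d (φ + 2 * π / N) = R' at *
  generalize Rp N d φ = R at *
  generalize Ea (-2) N (φ + 2 * π / N) = E' at *
  rw [← h2]
  have hI : Complex.I * Complex.I = -1 := Complex.I_mul_I
  field_simp
  linear_combination (E' * (b * z + 1)) * h1 +
    (E' * R * (b * z * p ^ 2 + b * z - b * z ^ 3 * p ^ 2 - b * z ^ 3 - z ^ 4 + 1)) * hI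

end Pool.Agent.N803.VS
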